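import Pool.Agent.Y825.NM.Poly

/-! The explicit extensions, and the induction. -/

set_option autoImplicit false

open scoped Pointwise
open Finset

namespace Pool.Agent.Y825.NM

open Pool.Agent.Results.MP_3570a5_nt.NegativeCoefficient

/-- The property which is propagated. -/
def Good (d p : ℕ) : Prop :=
  ∃ (q : Fin p → ℕ) (v : Idx q → Fin d → ℤ),
    (∀ i, 1 ≤ q i) ∧ Function.Injective v ∧ (∀ a, v a ≠ 0) ∧ Standing v ∧ Fano v ∧
    ∃ a : Idx q, ∀ n : ℕ, ∃ k : Idx q →₀ ℕ, InK0 v k ∧ ∑ b, k b = 4 * n + 8 ∧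
      MvPowerSeries.coeff k (logMirror v a) ≤ -4 ^ (n + 2)

theorem Step.good {d p p' : ℕ} {q : Fin p → ℕ} {q' : Fin p' → ℕ} {v : Idx q → Fin d → ℤ}
    {v' : Idx q' → Fin (d + 1) → ℤ} (S : Step v v') (hq' : ∀ i, 1 ≤ q' i)
    (hinj : Function.Injective v) (h0 : ∀ a, v a ≠ 0) (hs : Standing v) (hf : Fano v)
    (h : ∃ a : Idx q, ∀ n : ℕ, ∃ k : Idx q →₀ ℕ, InK0 v k ∧ ∑ b, k b = 4 * n + 8 ∧
      MvPowerSeries.coeff k (logMirror v a) ≤ -4 ^ (n + 2)) : Good (d + 1) p' := by
  refine ⟨q', v', hq', S.injective hinj, S.ne_zero h0, S.standing hs, S.fano hs hf, ?_⟩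
  obtain ⟨a, ha⟩ := h
  refine ⟨S.ι a, fun n => ?_⟩
  obtain ⟨k, hk1, hk2, hk3⟩ := ha n
  refine ⟨k.embDomain S.ι, ?_, ?_, ?_⟩
  · exact (S.inK0_ext (consL d) (consL_injective d) S.old k).mpr hk1
  · rw [← hk2]
    symm
    refine Fintype.sum_of_injective S.ι S.ι.injective _ _ ?_ ?_
    · intro b hb
      exact Finsupp.embDomain_of_notMem_range _ _ _ hb
    · intro b
      exact (Finsupp.embDomain_apply_self _ _ _).symm
  · rw [S.coeff_ext (consL d) (consL_injective d) S.old a k]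
    exact hk3

section Explicit

variable {d p p' : ℕ} (q : Fin p → ℕ) (v : Idx q → Fin d → ℤ) (i0 : Fin p')

/-- the number of old elements in a group -/
def osz (i : Fin p') : ℕ := if h : i.val < p then q ⟨i.val, h⟩ else 0

/-- the new sizes: two new elements in the group `i0` -/
def qn (i : Fin p') : ℕ := osz q i + if i = i0 then 2 else 0

/-- the new vectors -/
def vn (a : Idx (qn q i0)) : Fin (d + 1) → ℤ :=
  if h : ∃ h1 : a.1.val < p, a.2.val < q ⟨a.1.val, h1⟩ then
    consL d (v ⟨⟨a.1.val, h.fst⟩, ⟨a.2.val, h.snd⟩⟩)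
  else if a.2.val = osz q a.1 then e0 d else -e0 d

/-- the embedding of the old index set -/
def emb (hp : p ≤ p') : GroupEmb q (qn q i0) where
  e := Fin.castLE hp
  e_inj := Fin.castLE_injective hp
  g i j := ⟨j.val, by
    have h1 : osz q (Fin.castLE hp i) = q i := by
      unfold osz
      rw [dif_pos (show (Fin.castLE hp i).val < p from i.isLt)]
      rfl
    unfold qn
    rw [h1]
    have := j.isLt
    omega⟩
  g_inj i j j' h := by
    have := congrArg Fin.val h
    exact Fin.ext this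

theorem mem_range_emb (hp : p ≤ p') (b : Idx (qn q i0)) :
    b ∈ Set.range (emb q i0 hp).ι ↔ ∃ h1 : b.1.val < p, b.2.val < q ⟨b.1.val, h1⟩ := by
  constructor
  · rintro ⟨⟨i, j⟩, rfl⟩
    exact ⟨i.isLt, j.isLt⟩
  · obtain ⟨i, j⟩ := b
    rintro ⟨h1, h2⟩
    exact ⟨⟨⟨i.val, h1⟩, ⟨j.val, h2⟩⟩, rfl⟩

theorem notin_emb (hp : p ≤ p') (b : Idx (qn q i0)) (hb : b ∉ Set.range (emb q i0 hp).ι) :
    b.1 = i0 ∧ (b.2.val = osz q b.1 ∨ b.2.val = osz q b.1 + 1) := by
  rw [mem_range_emb] at hb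
  obtain ⟨i, j⟩ := b
  have hj : j.val < qn q i0 i := j.isLt
  have ho : osz q i ≤ j.val := by
    unfold osz
    by_cases h : i.val < p
    · rw [dif_pos h]
      by_contra hlt
      exact hb ⟨h, not_le.mp hlt⟩
    · rw [dif_neg h]
      exact Nat.zero_le _
  by_cases hi : i = i0
  · have h3 : qn q i0 i = osz q i + 2 := by
      unfold qn
      rw [if_pos hi]
    refine ⟨hi, ?_⟩
    show j.val = osz q i ∨ j.val = osz q i + 1
    omega
  · have h3 : qn q i0 i = osz q i + 0 := by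
      unfold qn
      rw [if_neg hi]
    omega

/-- the explicit step -/
def step (hp : p ≤ p') : Step v (vn q v i0) where
  toGroupEmb := emb q i0 hp
  i0 := i0
  old a := by
    have h := (mem_range_emb q i0 hp ((emb q i0 hp).ι a)).mp ⟨a, rfl⟩
    unfold vn
    rw [dif_pos h]
    rfl
  new b hb := by
    refine ⟨(notin_emb q i0 hp b hb).1, ?_⟩
    rw [mem_range_emb] at hb
    unfold vn
    rw [dif_neg hb]
    by_cases h : b.2.val = osz q b.1
    · rw [if_pos h]
      exact Or.inl rfl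
    · rw [if_neg h]
      exact Or.inr rfl
  bp := ⟨osz q i0, by unfold qn; rw [if_pos rfl]; omega⟩
  bp_eq := by
    unfold vn
    rw [dif_neg, if_pos rfl]
    rintro ⟨h1, h2⟩
    have h3 : osz q i0 = q ⟨i0.val, h1⟩ := dif_pos h1
    have h4 : osz q i0 < q ⟨i0.val, h1⟩ := h2
    omega
  bm := ⟨osz q i0 + 1, by unfold qn; rw [if_pos rfl]; omega⟩
  bm_eq := by
    unfold vn
    rw [dif_neg, if_neg]
    · exact Nat.succ_ne_self _
    · rintro ⟨h1, h2⟩
      have h3 : osz q i0 = q ⟨i0.val, h1⟩ := dif_pos h1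
      have h4 : osz q i0 + 1 < q ⟨i0.val, h1⟩ := h2
      omega
  new_inj b b' hb hb' h := by
    have h1 := notin_emb q i0 hp b hb
    have h1' := notin_emb q i0 hp b' hb'
    rw [mem_range_emb] at hb hb'
    unfold vn at h
    rw [dif_neg hb, dif_neg hb'] at h
    obtain ⟨i, j⟩ := b
    obtain ⟨i', j'⟩ := b'
    have hi : i = i0 := h1.1
    have hi' : i' = i0 := h1'.1
    subst hi
    subst hi'
    have hne : e0 d ≠ -e0 d := by
      intro hh
      have := congrFun hh 0
      rw [Pi.neg_apply, e0_zero] at this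
      norm_num at this
    have h2 : j.val = osz q i' ∨ j.val = osz q i' + 1 := h1.2
    have h2' : j'.val = osz q i' ∨ j'.val = osz q i' + 1 := h1'.2
    have h' : (if j.val = osz q i' then e0 d else -e0 d) =
      (if j'.val = osz q i' then e0 d else -e0 d) := h
    have hj : j.val = j'.val := by
      by_cases ha : j.val = osz q i'
      · by_cases hb : j'.val = osz q i'
        · rw [ha, hb]
        · rw [if_pos ha, if_neg hb] at h'
          exact absurd h' hne
      · by_cases hb : j'.val = osz q i'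
        · rw [if_neg ha, if_pos hb] at h'
          exact absurd h'.symm hne
        · omega
    rw [Fin.ext hj]

end Explicit

theorem Good.step {d p p' : ℕ} (h : Good d p) (hp : p ≤ p') (i0 : Fin p')
    (h0 : ∀ i : Fin p', p ≤ i.val → i = i0) : Good (d + 1) p' := by
  obtain ⟨q, v, hq, hinj, hne, hs, hf, hk⟩ := h
  refine (NM.step q v i0 hp).good ?_ hinj hne hs hf hk
  intro i
  unfold qn osz
  by_cases hi : i.val < p
  · rw [dif_pos hi]
    have := hq ⟨i.val, hi⟩
    omega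
  · rw [dif_neg hi, if_pos (h0 i (not_lt.mp hi))]
    norm_num

theorem good_base : Good 3 2 := by
  refine ⟨q0, vv, fun _ => by simp [q0], ?_, ?_,
    ⟨zero_mem_interior, span_vv⟩, fano_vv, ⟨0, (0 : Fin 3)⟩, fun n => ⟨A (n + 1), ?_, ?_, ?_⟩⟩
  · rintro ⟨i, j⟩ ⟨i', j'⟩ hij
    have key : ∀ (i : Fin 2) (j : Fin 3) (i' : Fin 2) (j' : Fin 3),
        (![![![-1, 0, 0], ![1, 0, 1], ![1, 0, -1]],
          ![![0, 1, 0], ![0, -1, 1], ![0, -1, -1]]] : Fin 2 → Fin 3 → Fin 3 → ℤ) i j =
        (![![![-1, 0, 0], ![1, 0, 1], ![1, 0, -1]],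
          ![![0, 1, 0], ![0, -1, 1], ![0, -1, -1]]] : Fin 2 → Fin 3 → Fin 3 → ℤ) i' j' →
        i = i' ∧ j = j' := by decide
    obtain ⟨h1, h2⟩ := key i j i' j' hij
    subst h1
    exact congrArg _ h2
  · rintro ⟨i, j⟩ hij
    have key : ∀ (i : Fin 2) (j : Fin 3),
        (![![![-1, 0, 0], ![1, 0, 1], ![1, 0, -1]],
          ![![0, 1, 0], ![0, -1, 1], ![0, -1, -1]]] : Fin 2 → Fin 3 → Fin 3 → ℤ) i j ≠ 0 := by
      decide
    exact key i j hij
  · exact inK0_A (n + 1)
  · rw [sum_idx]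
    unfold A
    rw [mk00, mk01, mk02, mk10, mk11, mk12]
    ring
  · exact coeff_le n

theorem good_all (d p : ℕ) (h2 : 2 ≤ p) (hp : p + 1 ≤ d) : Good d p := by
  -- first `(3 + b, 2 + b)`, then `(3 + b + a, 2 + b)`
  have h1 : ∀ b : ℕ, Good (3 + b) (2 + b) := by
    intro b
    induction b with
    | zero => exact good_base
    | succ b ih =>
      refine ih.step (p' := 2 + b + 1) (Nat.le_succ _) (Fin.last _) ?_
      intro i hi
      apply Fin.ext
      rw [Fin.val_last]
      have := i.isLt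
      omega
  have h3 : ∀ b a : ℕ, Good (3 + b + a) (2 + b) := by
    intro b a
    induction a with
    | zero => exact h1 b
    | succ a ih =>
      refine ih.step (p' := 2 + b) le_rfl ⟨0, by omega⟩ ?_
      intro i hi
      have := i.isLt
      omega
  have h4 := h3 (p - 2) (d - (p + 1))
  have e1 : 3 + (p - 2) + (d - (p + 1)) = d := by omega
  have e2 : 2 + (p - 2) = p := by omega
  rwa [e1, e2] at h4

end Pool.Agent.Y825.NM
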