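import Pool.Agent.Y825.NM.Value

/-! Inheritance of the coefficients of `φ_{ij} / φ₀` under an extension of the data. -/

set_option autoImplicit false

open Finset

namespace Pool.Agent.Y825.NM

open Pool.Agent.Results.MP_3570a5_nt.NegativeCoefficient

section Ser

variable {α β : Type*} [DecidableEq α] [DecidableEq β]

/-- The coefficients of a product at exponents supported on the image of an embedding. -/
theorem coeff_embDomain_mul (ι : α ↪ β) (F G : MvPowerSeries β ℚ) (k : α →₀ ℕ) :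
    MvPowerSeries.coeff (k.embDomain ι) (F * G) =
      ∑ x ∈ antidiagonal k, MvPowerSeries.coeff (x.1.embDomain ι) F *
        MvPowerSeries.coeff (x.2.embDomain ι) G := by
  rw [MvPowerSeries.coeff_mul]
  symm
  refine Finset.sum_bij (fun x _ => (x.1.embDomain ι, x.2.embDomain ι)) ?_ ?_ ?_ ?_
  · intro x hx
    rw [Finset.HasAntidiagonal.mem_antidiagonal] at hx ⊢
    rw [← hx]
    ext b
    by_cases hb : b ∈ Set.range ι
    · obtain ⟨a, rfl⟩ := hb
      simp [Finsupp.embDomain_apply_self]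
    · simp [Finsupp.embDomain_of_notMem_range _ _ _ hb]
  · intro x _ y _ h
    rw [Prod.ext_iff] at h
    exact Prod.ext (Finsupp.embDomain_injective ι h.1) (Finsupp.embDomain_injective ι h.2)
  · intro y hy
    rw [Finset.HasAntidiagonal.mem_antidiagonal] at hy
    have h0 : ∀ b, b ∉ Set.range ι → y.1 b = 0 ∧ y.2 b = 0 := by
      intro b hb
      have h := DFunLike.congr_fun hy b
      rw [Finsupp.embDomain_of_notMem_range _ _ _ hb, Finsupp.add_apply] at h
      omega
    refine ⟨(y.1.comapDomain ι ι.injective.injOn, y.2.comapDomain ι ι.injective.injOn), ?_, ?_⟩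
    · rw [Finset.HasAntidiagonal.mem_antidiagonal]
      ext a
      have h := DFunLike.congr_fun hy (ι a)
      rw [Finsupp.embDomain_apply_self, Finsupp.add_apply] at h
      rw [Finsupp.add_apply, Finsupp.comapDomain_apply, Finsupp.comapDomain_apply]
      exact h
    · refine Prod.ext ?_ ?_
      · ext b
        by_cases hb : b ∈ Set.range ι
        · obtain ⟨a, rfl⟩ := hb
          simp [Finsupp.embDomain_apply_self]
        · rw [Finsupp.embDomain_of_notMem_range _ _ _ hb]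
          exact (h0 b hb).1.symm
      · ext b
        by_cases hb : b ∈ Set.range ι
        · obtain ⟨a, rfl⟩ := hb
          simp [Finsupp.embDomain_apply_self]
        · rw [Finsupp.embDomain_of_notMem_range _ _ _ hb]
          exact (h0 b hb).2.symm
  · intro x _
    rfl

/-- Restriction of a series to the exponents supported on the image of an embedding. -/
noncomputable def restr (ι : α ↪ β) (F : MvPowerSeries β ℚ) : MvPowerSeries α ℚ :=
  fun k => MvPowerSeries.coeff (k.embDomain ι) F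

omit [DecidableEq α] [DecidableEq β] in
theorem coeff_restr (ι : α ↪ β) (F : MvPowerSeries β ℚ) (k : α →₀ ℕ) :
    MvPowerSeries.coeff k (restr ι F) = MvPowerSeries.coeff (k.embDomain ι) F := rfl

theorem restr_mul (ι : α ↪ β) (F G : MvPowerSeries β ℚ) :
    restr ι (F * G) = restr ι F * restr ι G := by
  ext k
  rw [coeff_restr, coeff_embDomain_mul, MvPowerSeries.coeff_mul]
  rfl

end Ser

section Data

variable {d p : ℕ} {q : Fin p → ℕ}

theorem inK0_zero (v : Idx q → Fin d → ℤ) : InK0 v 0 := by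
  unfold InK0
  simp

theorem coefC_zero : coefC (0 : Idx q →₀ ℕ) = 1 := by
  unfold coefC
  simp

theorem constCoeff_phi0 (v : Idx q → Fin d → ℤ) : MvPowerSeries.constantCoeff (phi0 v) = 1 := by
  classical
  rw [← MvPowerSeries.coeff_zero_eq_constantCoeff_apply]
  have h : MvPowerSeries.coeff 0 (phi0 v) = coefC (0 : Idx q →₀ ℕ) := if_pos (inK0_zero v)
  rw [h, coefC_zero]

theorem logMirror_mul' (v : Idx q → Fin d → ℤ) (a : Idx q) :
    logMirror v a * phi0 v = phi v a := by
  unfold logMirror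
  rw [mul_assoc, MvPowerSeries.inv_mul_cancel _ (by rw [constCoeff_phi0]; exact one_ne_zero),
    mul_one]

theorem phi0_ne (v : Idx q → Fin d → ℤ) : phi0 v ≠ 0 := by
  intro h
  have h1 := constCoeff_phi0 v
  rw [h, map_zero] at h1
  exact zero_ne_one h1

variable {d' p' : ℕ} {q' : Fin p' → ℕ}

/-- An embedding of index sets compatible with the groups. -/
structure GroupEmb (q : Fin p → ℕ) (q' : Fin p' → ℕ) where
  /-- the map on groups -/
  e : Fin p → Fin p'
  e_inj : Function.Injective e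
  /-- the maps on the elements of the groups -/
  g : ∀ i, Fin (q i) → Fin (q' (e i))
  g_inj : ∀ i, Function.Injective (g i)

namespace GroupEmb

variable (E : GroupEmb q q')

/-- the embedding of the index sets -/
def ι : Idx q ↪ Idx q' where
  toFun a := ⟨E.e a.1, E.g a.1 a.2⟩
  inj' := by
    rintro ⟨i, j⟩ ⟨i', j'⟩ h
    have h1 : i = i' := E.e_inj (congrArg Sigma.fst h)
    subst h1
    have h2 : j = j' := E.g_inj i (eq_of_heq (Sigma.mk.inj h).2)
    rw [h2]

theorem ι_mk (i : Fin p) (j : Fin (q i)) : E.ι ⟨i, j⟩ = ⟨E.e i, E.g i j⟩ := rfl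

theorem notin_of_g {i : Fin p} {j' : Fin (q' (E.e i))} (h : j' ∉ Set.range (E.g i)) :
    (⟨E.e i, j'⟩ : Idx q') ∉ Set.range E.ι := by
  rintro ⟨⟨i0, j0⟩, h0⟩
  have h1 : i0 = i := E.e_inj (congrArg Sigma.fst h0)
  subst h1
  exact h ⟨j0, eq_of_heq (Sigma.mk.inj h0).2⟩

theorem notin_of_e {i' : Fin p'} {j' : Fin (q' i')} (h : i' ∉ Set.range E.e) :
    (⟨i', j'⟩ : Idx q') ∉ Set.range E.ι := by
  rintro ⟨⟨i0, j0⟩, h0⟩
  exact h ⟨i0, congrArg Sigma.fst h0⟩

theorem ext_apply (k : Idx q →₀ ℕ) (i : Fin p) (j : Fin (q i)) :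
    k.embDomain E.ι ⟨E.e i, E.g i j⟩ = k ⟨i, j⟩ :=
  Finsupp.embDomain_apply_self E.ι k ⟨i, j⟩

theorem sum_group (k : Idx q →₀ ℕ) (i : Fin p) :
    ∑ j', k.embDomain E.ι ⟨E.e i, j'⟩ = ∑ j, k ⟨i, j⟩ := by
  symm
  refine Fintype.sum_of_injective (E.g i) (E.g_inj i) _ _ ?_ ?_
  · intro j' hj'
    exact Finsupp.embDomain_of_notMem_range _ _ _ (E.notin_of_g hj')
  · intro j
    exact (E.ext_apply k i j).symm

theorem coefC_ext (k : Idx q →₀ ℕ) : coefC (k.embDomain E.ι) = coefC k := by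
  unfold coefC
  symm
  refine Fintype.prod_of_injective E.e E.e_inj _ _ ?_ ?_
  · intro i' hi'
    have h : ∀ j' : Fin (q' i'), k.embDomain E.ι ⟨i', j'⟩ = 0 := fun j' =>
      Finsupp.embDomain_of_notMem_range _ _ _ (E.notin_of_e hi')
    simp [h]
  · intro i
    rw [E.sum_group k i]
    congr 1
    refine Fintype.prod_of_injective (E.g i) (E.g_inj i) _ _ ?_ ?_
    · intro j' hj'
      rw [Finsupp.embDomain_of_notMem_range _ _ _ (E.notin_of_g hj'), Nat.factorial_zero, Nat.cast_one]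
    · intro j
      rw [E.ext_apply]

theorem inK0_ext {v : Idx q → Fin d → ℤ} {v' : Idx q' → Fin d' → ℤ}
    (L : (Fin d → ℤ) →ₗ[ℤ] (Fin d' → ℤ)) (hL : Function.Injective L)
    (h : ∀ a, v' (E.ι a) = L (v a)) (k : Idx q →₀ ℕ) :
    InK0 v' (k.embDomain E.ι) ↔ InK0 v k := by
  unfold InK0
  have h1 : ∑ b, ((k.embDomain E.ι) b : ℤ) • v' b = L (∑ a, (k a : ℤ) • v a) := by
    rw [map_sum]
    symm
    refine Fintype.sum_of_injective E.ι E.ι.injective _ _ ?_ ?_
    · intro b hb
      rw [Finsupp.embDomain_of_notMem_range _ _ _ hb, Nat.cast_zero, zero_smul]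
    · intro a
      rw [Finsupp.embDomain_apply_self, h, map_smul]
  rw [h1]
  constructor
  · intro h2
    exact hL (by rw [h2, map_zero])
  · intro h2
    rw [h2, map_zero]

theorem restr_phi0 {v : Idx q → Fin d → ℤ} {v' : Idx q' → Fin d' → ℤ}
    (L : (Fin d → ℤ) →ₗ[ℤ] (Fin d' → ℤ)) (hL : Function.Injective L)
    (h : ∀ a, v' (E.ι a) = L (v a)) : restr E.ι (phi0 v') = phi0 v := by
  ext k
  rw [coeff_restr]
  by_cases hk : InK0 v k
  · have h1 : MvPowerSeries.coeff k (phi0 v) = coefC k := if_pos hk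
    have h2 : MvPowerSeries.coeff (k.embDomain E.ι) (phi0 v') = coefC (k.embDomain E.ι) :=
      if_pos ((E.inK0_ext L hL h k).mpr hk)
    rw [h1, h2, E.coefC_ext]
  · have h1 : MvPowerSeries.coeff k (phi0 v) = 0 := if_neg hk
    have h2 : MvPowerSeries.coeff (k.embDomain E.ι) (phi0 v') = 0 :=
      if_neg (fun h' => hk ((E.inK0_ext L hL h k).mp h'))
    rw [h1, h2]

theorem restr_phi {v : Idx q → Fin d → ℤ} {v' : Idx q' → Fin d' → ℤ}
    (L : (Fin d → ℤ) →ₗ[ℤ] (Fin d' → ℤ)) (hL : Function.Injective L)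
    (h : ∀ a, v' (E.ι a) = L (v a)) (a : Idx q) :
    restr E.ι (phi v' (E.ι a)) = phi v a := by
  obtain ⟨i, j⟩ := a
  ext k
  rw [coeff_restr]
  by_cases hk : InK0 v k
  · have h1 : MvPowerSeries.coeff k (phi v ⟨i, j⟩) =
        coefC k * (harmonic (∑ m, k ⟨i, m⟩) - harmonic (k ⟨i, j⟩)) := if_pos hk
    have h2 : MvPowerSeries.coeff (k.embDomain E.ι) (phi v' (E.ι ⟨i, j⟩)) =
        coefC (k.embDomain E.ι) * (harmonic (∑ m, k.embDomain E.ι ⟨E.e i, m⟩) -
          harmonic (k.embDomain E.ι (E.ι ⟨i, j⟩))) :=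
      if_pos ((E.inK0_ext L hL h k).mpr hk)
    rw [h1, h2, E.coefC_ext, E.sum_group, Finsupp.embDomain_apply_self]
  · have h1 : MvPowerSeries.coeff k (phi v ⟨i, j⟩) = 0 := if_neg hk
    have h2 : MvPowerSeries.coeff (k.embDomain E.ι) (phi v' (E.ι ⟨i, j⟩)) = 0 :=
      if_neg (fun h' => hk ((E.inK0_ext L hL h k).mp h'))
    rw [h1, h2]

theorem restr_logMirror {v : Idx q → Fin d → ℤ} {v' : Idx q' → Fin d' → ℤ}
    (L : (Fin d → ℤ) →ₗ[ℤ] (Fin d' → ℤ)) (hL : Function.Injective L)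
    (h : ∀ a, v' (E.ι a) = L (v a)) (a : Idx q) :
    restr E.ι (logMirror v' (E.ι a)) = logMirror v a := by
  refine mul_right_cancel₀ (phi0_ne v) ?_
  rw [logMirror_mul', ← E.restr_phi0 L hL h, ← restr_mul, logMirror_mul', E.restr_phi L hL h]

/-- The coefficients are inherited. -/
theorem coeff_ext {v : Idx q → Fin d → ℤ} {v' : Idx q' → Fin d' → ℤ}
    (L : (Fin d → ℤ) →ₗ[ℤ] (Fin d' → ℤ)) (hL : Function.Injective L)
    (h : ∀ a, v' (E.ι a) = L (v a)) (a : Idx q) (k : Idx q →₀ ℕ) :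
    MvPowerSeries.coeff (k.embDomain E.ι) (logMirror v' (E.ι a)) =
      MvPowerSeries.coeff k (logMirror v a) := by
  rw [← E.restr_logMirror L hL h a, coeff_restr]

end GroupEmb

end Data

end Pool.Agent.Y825.NM
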