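import Pool.Agent.Y825.NM.Ext

/-! Adding one dimension to the data: the standing assumptions, the Fano property and the
coefficients are inherited. -/

set_option autoImplicit false

open scoped Pointwise
open Finset

namespace Pool.Agent.Y825.NM

open Pool.Agent.Results.MP_3570a5_nt.NegativeCoefficient

/-- the `i`-th summand -/
def hull {d p : ℕ} {q : Fin p → ℕ} (v : Idx q → Fin d → ℤ) (i : Fin p) : Set (Fin d → ℝ) :=
  convexHull ℝ (insert 0 (Set.range fun j => toReal (v ⟨i, j⟩)))

theorem mem_poly {d p : ℕ} {q : Fin p → ℕ} {v : Idx q → Fin d → ℤ} {y : Fin d → ℝ} :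
    y ∈ poly v ↔ ∃ g : Fin p → Fin d → ℝ, (∀ i, g i ∈ hull v i) ∧ ∑ i, g i = y := by
  unfold poly
  rw [Set.mem_fintype_sum]
  constructor
  · rintro ⟨g, hg, h⟩
    exact ⟨g, hg, h⟩
  · rintro ⟨g, hg, h⟩
    exact ⟨g, hg, h⟩

theorem zero_mem_hull {d p : ℕ} {q : Fin p → ℕ} (v : Idx q → Fin d → ℤ) (i : Fin p) :
    (0 : Fin d → ℝ) ∈ hull v i :=
  subset_convexHull ℝ _ (Set.mem_insert _ _)

theorem mem_hull {d p : ℕ} {q : Fin p → ℕ} (v : Idx q → Fin d → ℤ) (i : Fin p) (j : Fin (q i)) :
    toReal (v ⟨i, j⟩) ∈ hull v i :=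
  subset_convexHull ℝ _ (Set.mem_insert_of_mem _ ⟨j, rfl⟩)

theorem convex_poly {d p : ℕ} {q : Fin p → ℕ} (v : Idx q → Fin d → ℤ) : Convex ℝ (poly v) := by
  intro x hx y hy a b ha hb hab
  rw [mem_poly] at hx hy ⊢
  obtain ⟨g, hg, rfl⟩ := hx
  obtain ⟨g', hg', rfl⟩ := hy
  refine ⟨fun i => a • g i + b • g' i, fun i => (convex_convexHull ℝ _) (hg i) (hg' i) ha hb hab,
    ?_⟩
  rw [Finset.sum_add_distrib, ← Finset.smul_sum, ← Finset.smul_sum]

/-- adding a zero coordinate in front (integers) -/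
def consL (d : ℕ) : (Fin d → ℤ) →ₗ[ℤ] (Fin (d + 1) → ℤ) where
  toFun x := Fin.cons (α := fun _ => ℤ) 0 x
  map_add' x y := by
    funext t
    refine Fin.cases ?_ (fun i => ?_) t
    · simp
    · simp
  map_smul' c x := by
    funext t
    refine Fin.cases ?_ (fun i => ?_) t
    · simp
    · simp

/-- adding a zero coordinate in front (reals) -/
def consR (d : ℕ) : (Fin d → ℝ) →ₗ[ℝ] (Fin (d + 1) → ℝ) where
  toFun x := Fin.cons (α := fun _ => ℝ) 0 x
  map_add' x y := by
    funext t
    refine Fin.cases ?_ (fun i => ?_) t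
    · simp
    · simp
  map_smul' c x := by
    funext t
    refine Fin.cases ?_ (fun i => ?_) t
    · simp
    · simp

/-- forgetting the first coordinate -/
def tailR (d : ℕ) : (Fin (d + 1) → ℝ) →ₗ[ℝ] (Fin d → ℝ) where
  toFun x := fun i => x i.succ
  map_add' x y := rfl
  map_smul' c x := rfl

theorem consL_zero {d : ℕ} (x : Fin d → ℤ) : consL d x 0 = 0 := rfl
theorem consL_succ {d : ℕ} (x : Fin d → ℤ) (i : Fin d) : consL d x i.succ = x i := rfl
theorem consR_zero {d : ℕ} (x : Fin d → ℝ) : consR d x 0 = 0 := rfl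
theorem consR_succ {d : ℕ} (x : Fin d → ℝ) (i : Fin d) : consR d x i.succ = x i := rfl
theorem tailR_apply {d : ℕ} (x : Fin (d + 1) → ℝ) (i : Fin d) : tailR d x i = x i.succ := rfl

theorem consL_injective (d : ℕ) : Function.Injective (consL d) := by
  intro x y h
  funext i
  have := congrFun h i.succ
  rwa [consL_succ, consL_succ] at this

theorem toReal_consL {d : ℕ} (x : Fin d → ℤ) : toReal (consL d x) = consR d (toReal x) := by
  funext t
  refine Fin.cases ?_ (fun i => ?_) t
  · unfold toReal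
    rw [consL_zero, consR_zero, Int.cast_zero]
  · unfold toReal
    rw [consL_succ, consR_succ]

theorem tailR_consR {d : ℕ} (x : Fin d → ℝ) : tailR d (consR d x) = x := rfl

/-- the first basis vector -/
def e0 (d : ℕ) : Fin (d + 1) → ℤ := Pi.single 0 1

theorem e0_zero (d : ℕ) : e0 d 0 = 1 := by simp [e0]
theorem e0_succ {d : ℕ} (i : Fin d) : e0 d i.succ = 0 := by simp [e0]

theorem tailR_e0 (d : ℕ) : tailR d (toReal (e0 d)) = 0 := by
  funext i
  rw [tailR_apply]
  unfold toReal
  rw [e0_succ, Int.cast_zero]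
  rfl

theorem tailR_neg_e0 (d : ℕ) : tailR d (toReal (-e0 d)) = 0 := by
  funext i
  rw [tailR_apply]
  unfold toReal
  rw [Pi.neg_apply, e0_succ, neg_zero, Int.cast_zero]
  rfl

/-- One step of the extension. -/
structure Step {d p p' : ℕ} {q : Fin p → ℕ} {q' : Fin p' → ℕ} (v : Idx q → Fin d → ℤ)
    (v' : Idx q' → Fin (d + 1) → ℤ) extends GroupEmb q q' where
  i0 : Fin p'
  old : ∀ a, v' (toGroupEmb.ι a) = consL d (v a)
  new : ∀ b, b ∉ Set.range toGroupEmb.ι → b.1 = i0 ∧ (v' b = e0 d ∨ v' b = -e0 d)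
  bp : Fin (q' i0)
  bp_eq : v' ⟨i0, bp⟩ = e0 d
  bm : Fin (q' i0)
  bm_eq : v' ⟨i0, bm⟩ = -e0 d
  new_inj : ∀ b b', b ∉ Set.range toGroupEmb.ι → b' ∉ Set.range toGroupEmb.ι → v' b = v' b' →
    b = b'

namespace Step

variable {d p p' : ℕ} {q : Fin p → ℕ} {q' : Fin p' → ℕ} {v : Idx q → Fin d → ℤ}
    {v' : Idx q' → Fin (d + 1) → ℤ} (S : Step v v')

include S

theorem ne_zero (h : ∀ a, v a ≠ 0) (b : Idx q') : v' b ≠ 0 := by
  intro hb
  by_cases hr : b ∈ Set.range S.ι
  · obtain ⟨a, rfl⟩ := hr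
    rw [S.old] at hb
    exact h a (consL_injective d (by rw [hb, map_zero]))
  · rcases (S.new b hr).2 with h1 | h1
    · rw [h1] at hb
      have := congrFun hb 0
      rw [e0_zero] at this
      exact one_ne_zero this
    · rw [h1] at hb
      have := congrFun hb 0
      rw [Pi.neg_apply, e0_zero] at this
      norm_num at this

theorem injective (h : Function.Injective v) : Function.Injective v' := by
  have key : ∀ b b', b ∈ Set.range S.ι → b' ∉ Set.range S.ι → v' b ≠ v' b' := by
    intro b b' hb hb' he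
    obtain ⟨a, rfl⟩ := hb
    rw [S.old] at he
    have h0 := congrFun he 0
    rw [consL_zero] at h0
    rcases (S.new b' hb').2 with h1 | h1
    · rw [h1, e0_zero] at h0
      exact zero_ne_one h0
    · rw [h1, Pi.neg_apply, e0_zero] at h0
      norm_num at h0
  intro b b' he
  by_cases hb : b ∈ Set.range S.ι
  · by_cases hb' : b' ∈ Set.range S.ι
    · obtain ⟨a, rfl⟩ := hb
      obtain ⟨a', rfl⟩ := hb'
      rw [S.old, S.old] at he
      rw [h (consL_injective d he)]
    · exact absurd he (key b b' hb hb')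
  · by_cases hb' : b' ∈ Set.range S.ι
    · exact absurd he.symm (key b' b hb' hb)
    · exact S.new_inj b b' hb hb' he

theorem hull_cons (i : Fin p) {y : Fin d → ℝ} (hy : y ∈ hull v i) :
    consR d y ∈ hull v' (S.e i) := by
  have h : hull v i ⊆ (consR d) ⁻¹' (hull v' (S.e i)) := by
    refine convexHull_min ?_ ((convex_convexHull ℝ _).linear_preimage (consR d))
    intro x hx
    rcases Set.mem_insert_iff.mp hx with rfl | ⟨j, rfl⟩
    · rw [Set.mem_preimage, map_zero]
      exact zero_mem_hull v' _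
    · rw [Set.mem_preimage]
      have h1 := mem_hull v' (S.e i) (S.g i j)
      have h2 := S.old ⟨i, j⟩
      rw [GroupEmb.ι_mk] at h2
      rw [h2, toReal_consL] at h1
      exact h1
  exact h hy

theorem hull_tail_old (i : Fin p) {y : Fin (d + 1) → ℝ} (hy : y ∈ hull v' (S.e i)) :
    tailR d y ∈ hull v i := by
  have h : hull v' (S.e i) ⊆ (tailR d) ⁻¹' (hull v i) := by
    refine convexHull_min ?_ ((convex_convexHull ℝ _).linear_preimage (tailR d))
    intro x hx
    rcases Set.mem_insert_iff.mp hx with rfl | ⟨j', rfl⟩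
    · rw [Set.mem_preimage, map_zero]
      exact zero_mem_hull v _
    · rw [Set.mem_preimage]
      show tailR d (toReal (v' ⟨S.e i, j'⟩)) ∈ hull v i
      by_cases hj : j' ∈ Set.range (S.g i)
      · obtain ⟨j, rfl⟩ := hj
        have h2 := S.old ⟨i, j⟩
        rw [GroupEmb.ι_mk] at h2
        rw [h2, toReal_consL, tailR_consR]
        exact mem_hull v i j
      · rcases (S.new _ (S.notin_of_g hj)).2 with h1 | h1
        · rw [h1, tailR_e0]
          exact zero_mem_hull v i
        · rw [h1, tailR_neg_e0]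
          exact zero_mem_hull v i
  exact h hy

theorem hull_tail_new {i' : Fin p'} (hi : i' ∉ Set.range S.e) {y : Fin (d + 1) → ℝ}
    (hy : y ∈ hull v' i') : tailR d y = 0 := by
  have h : hull v' i' ⊆ (tailR d) ⁻¹' {0} := by
    refine convexHull_min ?_ ((convex_singleton (0 : Fin d → ℝ)).linear_preimage (tailR d))
    intro x hx
    rcases Set.mem_insert_iff.mp hx with rfl | ⟨j', rfl⟩
    · rw [Set.mem_preimage, map_zero]
      exact Set.mem_singleton _
    · rw [Set.mem_preimage, Set.mem_singleton_iff]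
      show tailR d (toReal (v' ⟨i', j'⟩)) = 0
      rcases (S.new _ (S.notin_of_e (j' := j') hi)).2 with h1 | h1
      · rw [h1, tailR_e0]
      · rw [h1, tailR_neg_e0]
  exact h hy

theorem hull_coord (i' : Fin p') {y : Fin (d + 1) → ℝ} (hy : y ∈ hull v' i') :
    y 0 ∈ Set.Icc (-1 : ℝ) 1 := by
  have h : hull v' i' ⊆ (LinearMap.proj (R := ℝ) (φ := fun _ : Fin (d + 1) => ℝ) 0) ⁻¹'
      (Set.Icc (-1 : ℝ) 1) := by
    refine convexHull_min ?_ ((convex_Icc (-1 : ℝ) 1).linear_preimage _)
    intro x hx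
    rcases Set.mem_insert_iff.mp hx with rfl | ⟨j', rfl⟩
    · rw [Set.mem_preimage, map_zero]
      constructor <;> norm_num
    · show toReal (v' ⟨i', j'⟩) 0 ∈ Set.Icc (-1 : ℝ) 1
      unfold toReal
      by_cases hr : (⟨i', j'⟩ : Idx q') ∈ Set.range S.ι
      · obtain ⟨a, ha⟩ := hr
        rw [← ha, S.old, consL_zero]
        constructor <;> norm_num
      · rcases (S.new _ hr).2 with h1 | h1
        · rw [h1, e0_zero]
          constructor <;> norm_num
        · rw [h1, Pi.neg_apply, e0_zero]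
          constructor <;> norm_num
  exact h hy

theorem hull_coord_zero {i' : Fin p'} (hi : i' ≠ S.i0) {y : Fin (d + 1) → ℝ}
    (hy : y ∈ hull v' i') : y 0 = 0 := by
  have h : hull v' i' ⊆ (LinearMap.proj (R := ℝ) (φ := fun _ : Fin (d + 1) => ℝ) 0) ⁻¹'
      ({0} : Set ℝ) := by
    refine convexHull_min ?_ ((convex_singleton (0 : ℝ)).linear_preimage _)
    intro x hx
    rcases Set.mem_insert_iff.mp hx with rfl | ⟨j', rfl⟩
    · rw [Set.mem_preimage, map_zero]
      exact Set.mem_singleton _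
    · show toReal (v' ⟨i', j'⟩) 0 = 0
      unfold toReal
      by_cases hr : (⟨i', j'⟩ : Idx q') ∈ Set.range S.ι
      · obtain ⟨a, ha⟩ := hr
        rw [← ha, S.old, consL_zero, Int.cast_zero]
      · exact absurd (S.new _ hr).1 hi
  exact h hy

theorem poly_tail {y : Fin (d + 1) → ℝ} (hy : y ∈ poly v') : tailR d y ∈ poly v := by
  rw [mem_poly] at hy ⊢
  obtain ⟨g, hg, rfl⟩ := hy
  refine ⟨fun i => tailR d (g (S.e i)), fun i => S.hull_tail_old i (hg _), ?_⟩
  rw [map_sum]
  refine Fintype.sum_of_injective S.e S.e_inj _ _ ?_ fun i => rfl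
  intro i' hi'
  exact S.hull_tail_new hi' (hg i')

theorem poly_coord {y : Fin (d + 1) → ℝ} (hy : y ∈ poly v') : y 0 ∈ Set.Icc (-1 : ℝ) 1 := by
  rw [mem_poly] at hy
  obtain ⟨g, hg, rfl⟩ := hy
  rw [Finset.sum_apply, Finset.sum_eq_single S.i0]
  · exact S.hull_coord S.i0 (hg _)
  · intro i' _ hi'
    exact S.hull_coord_zero hi' (hg i')
  · intro h
    exact absurd (Finset.mem_univ _) h

theorem poly_cons {y : Fin d → ℝ} (hy : y ∈ poly v) : consR d y ∈ poly v' := by
  rw [mem_poly] at hy ⊢
  obtain ⟨g, hg, rfl⟩ := hy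
  refine ⟨Function.extend S.e (fun i => consR d (g i)) 0, fun i' => ?_, ?_⟩
  · by_cases hi : i' ∈ Set.range S.e
    · obtain ⟨i, rfl⟩ := hi
      rw [S.e_inj.extend_apply]
      exact S.hull_cons i (hg i)
    · rw [Function.extend_apply' _ _ _ hi]
      exact zero_mem_hull v' i'
  · rw [map_sum]
    symm
    refine Fintype.sum_of_injective S.e S.e_inj _ _ ?_ ?_
    · intro i' hi'
      rw [Function.extend_apply' _ _ _ hi']
      rfl
    · intro i
      rw [S.e_inj.extend_apply]

theorem poly_single {y : Fin (d + 1) → ℝ} (hy : y ∈ hull v' S.i0) : y ∈ poly v' := by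
  classical
  rw [mem_poly]
  refine ⟨Pi.single S.i0 y, fun i' => ?_, ?_⟩
  · by_cases hi : i' = S.i0
    · subst hi
      rw [Pi.single_eq_same]
      exact hy
    · rw [Pi.single_eq_of_ne hi]
      exact zero_mem_hull v' i'
  · rw [Finset.sum_pi_single', if_pos (Finset.mem_univ _)]

theorem segment_mem {s : ℝ} (hs : s ∈ Set.Icc (-1 : ℝ) 1) :
    s • toReal (e0 d) ∈ poly v' := by
  have h1 : toReal (e0 d) ∈ poly v' := by
    have := mem_hull v' S.i0 S.bp
    rw [S.bp_eq] at this
    exact S.poly_single this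
  have h2 : toReal (-e0 d) ∈ poly v' := by
    have := mem_hull v' S.i0 S.bm
    rw [S.bm_eq] at this
    exact S.poly_single this
  have h3 : toReal (-e0 d) = -toReal (e0 d) := by
    funext t
    simp [toReal]
  rw [h3] at h2
  have h4 := convex_poly v' h1 h2 (a := (1 + s) / 2) (b := (1 - s) / 2)
    (by linarith [hs.1]) (by linarith [hs.2]) (by ring)
  have h5 : s • toReal (e0 d) =
      ((1 + s) / 2) • toReal (e0 d) + ((1 - s) / 2) • -toReal (e0 d) := by
    rw [smul_neg, ← sub_eq_add_neg, ← sub_smul]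
    congr 1
    ring
  rw [h5]
  exact h4

theorem zero_mem_int (h : (0 : Fin d → ℝ) ∈ interior (poly v)) :
    (0 : Fin (d + 1) → ℝ) ∈ interior (poly v') := by
  rw [mem_interior]
  refine ⟨{y | |y 0| < 1 / 2} ∩ (fun y => (2 : ℝ) • tailR d y) ⁻¹' (interior (poly v)), ?_, ?_, ?_⟩
  · rintro y ⟨hy1, hy2⟩
    have hy1' : |y 0| < 1 / 2 := hy1
    rw [abs_lt] at hy1'
    have h1 : (2 * y 0) • toReal (e0 d) ∈ poly v' :=
      S.segment_mem ⟨by linarith [hy1'.1], by linarith [hy1'.2]⟩
    have h2 : consR d ((2 : ℝ) • tailR d y) ∈ poly v' := S.poly_cons (interior_subset hy2)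
    have h3 := convex_poly v' h1 h2 (a := 1 / 2) (b := 1 / 2) (by norm_num) (by norm_num)
      (by norm_num)
    have h4 : y = (1 / 2 : ℝ) • (2 * y 0) • toReal (e0 d) +
        (1 / 2 : ℝ) • consR d ((2 : ℝ) • tailR d y) := by
      funext t
      refine Fin.cases ?_ (fun i => ?_) t
      · rw [Pi.add_apply, Pi.smul_apply, Pi.smul_apply, Pi.smul_apply, consR_zero]
        unfold toReal
        rw [e0_zero]
        simp
      · rw [Pi.add_apply, Pi.smul_apply, Pi.smul_apply, Pi.smul_apply, consR_succ]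
        unfold toReal
        rw [e0_succ, Pi.smul_apply, tailR_apply]
        simp
    rw [h4]
    exact h3
  · refine IsOpen.inter ?_ ?_
    · exact isOpen_lt ((continuous_apply 0).abs) continuous_const
    · refine isOpen_interior.preimage ?_
      exact ((tailR d).continuous_of_finiteDimensional).const_smul (2 : ℝ)
  · refine ⟨?_, ?_⟩
    · show |(0 : ℝ)| < 1 / 2
      norm_num
    · show (2 : ℝ) • tailR d 0 ∈ interior (poly v)
      rw [map_zero, smul_zero]
      exact h

theorem span (h : Submodule.span ℤ (Set.range v) = ⊤) :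
    Submodule.span ℤ (Set.range v') = ⊤ := by
  rw [eq_top_iff]
  intro x _
  have h1 : ∀ y : Fin d → ℤ, consL d y ∈ Submodule.span ℤ (Set.range v') := by
    intro y
    have hy : y ∈ Submodule.span ℤ (Set.range v) := by rw [h]; trivial
    have h2 : Submodule.span ℤ (Set.range v) ≤
        (Submodule.span ℤ (Set.range v')).comap (consL d) := by
      rw [Submodule.span_le]
      rintro _ ⟨a, rfl⟩
      show consL d (v a) ∈ Submodule.span ℤ (Set.range v')
      rw [← S.old]
      exact Submodule.subset_span ⟨_, rfl⟩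
    exact h2 hy
  have h3 : e0 d ∈ Submodule.span ℤ (Set.range v') := by
    rw [← S.bp_eq]
    exact Submodule.subset_span ⟨_, rfl⟩
  have h4 : x = x 0 • e0 d + consL d (fun i => x i.succ) := by
    funext t
    refine Fin.cases ?_ (fun i => ?_) t
    · rw [Pi.add_apply, Pi.smul_apply, consL_zero, e0_zero]
      simp
    · rw [Pi.add_apply, Pi.smul_apply, consL_succ, e0_succ]
      simp
  rw [h4]
  exact Submodule.add_mem _ (Submodule.smul_mem _ _ h3) (h1 _)

theorem standing (h : Standing v) : Standing v' := ⟨S.zero_mem_int h.1, S.span h.2⟩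

theorem fano (h0 : Standing v) (h : Fano v) : Fano v' := by
  intro x
  constructor
  · intro hx
    have h1 : tailR d (toReal x) ∈ interior (poly v) := by
      have hop : IsOpenMap (tailR d) := by
        refine LinearMap.isOpenMap_of_finiteDimensional (tailR d) ?_
        intro y
        exact ⟨consR d y, tailR_consR y⟩
      have h2 : (tailR d) '' (interior (poly v')) ⊆ interior (poly v) := by
        refine interior_maximal ?_ (hop _ isOpen_interior)
        rintro _ ⟨y, hy, rfl⟩
        exact S.poly_tail (interior_subset hy)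
      exact h2 ⟨_, hx, rfl⟩
    have h3 : tailR d (toReal x) = toReal (fun i => x i.succ) := rfl
    rw [h3] at h1
    have h4 := (h _).mp h1
    have h5 : toReal x 0 ∈ interior (Set.Icc (-1 : ℝ) 1) := by
      have hop : IsOpenMap (fun y : Fin (d + 1) → ℝ => y 0) := isOpenMap_eval 0
      have h6 : (fun y : Fin (d + 1) → ℝ => y 0) '' (interior (poly v')) ⊆
          interior (Set.Icc (-1 : ℝ) 1) := by
        refine interior_maximal ?_ (hop _ isOpen_interior)
        rintro _ ⟨y, hy, rfl⟩
        exact S.poly_coord (interior_subset hy)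
      exact h6 ⟨_, hx, rfl⟩
    rw [interior_Icc] at h5
    have h7 : x 0 = 0 := by
      have ha : (-1 : ℝ) < (x 0 : ℝ) := h5.1
      have hb : (x 0 : ℝ) < 1 := h5.2
      have ha' : -1 < x 0 := by exact_mod_cast ha
      have hb' : x 0 < 1 := by exact_mod_cast hb
      omega
    funext t
    refine Fin.cases ?_ (fun i => ?_) t
    · exact h7
    · exact congrFun h4 i
  · rintro rfl
    have : toReal (0 : Fin (d + 1) → ℤ) = 0 := by
      funext t
      simp [toReal]
    rw [this]
    exact S.zero_mem_int h0.1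

end Step

end Pool.Agent.Y825.NM
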