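import Pool.Agent.Results.MP_3570a5_nt.NegativeCoefficient

/-! The coefficients of `φ₁₁ / φ₀` at `(2,1,1; 2n,n,n)` for the example in dimension three. -/

set_option autoImplicit false

open Finset

namespace Pool.Agent.Y825.NM

open Pool.Agent.Results.MP_3570a5_nt.NegativeCoefficient

noncomputable def B (j : ℕ) : Idx q0 →₀ ℕ := mk 0 0 0 (2 * j) j j
noncomputable def P (j : ℕ) : Idx q0 →₀ ℕ := mk 1 1 0 (2 * j + 1) j (j + 1)
noncomputable def Q (j : ℕ) : Idx q0 →₀ ℕ := mk 1 0 1 (2 * j + 1) (j + 1) j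
noncomputable def A (j : ℕ) : Idx q0 →₀ ℕ := mk 2 1 1 (2 * j) j j

theorem mk_add {a b c d e f a' b' c' d' e' f' : ℕ} :
    mk a b c d e f + mk a' b' c' d' e' f' =
      mk (a + a') (b + b') (c + c') (d + d') (e + e') (f + f') := by
  rw [eq_mk (mk a b c d e f + mk a' b' c' d' e' f')]
  rfl

theorem A_inj {i j : ℕ} (h : A i = A j) : i = j := (mk_inj.mp h).2.2.2.2.1
theorem B_inj {i j : ℕ} (h : B i = B j) : i = j := (mk_inj.mp h).2.2.2.2.1
theorem P_inj {i j : ℕ} (h : P i = P j) : i = j := (mk_inj.mp h).2.2.2.2.1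
theorem Q_inj {i j : ℕ} (h : Q i = Q j) : i = j := (mk_inj.mp h).2.2.2.2.2

theorem A_ne_B (i j : ℕ) : A i ≠ B j := fun h => by have := (mk_inj.mp h).1; omega
theorem A_ne_P (i j : ℕ) : A i ≠ P j := fun h => by have := (mk_inj.mp h).1; omega
theorem A_ne_Q (i j : ℕ) : A i ≠ Q j := fun h => by have := (mk_inj.mp h).1; omega
theorem B_ne_P (i j : ℕ) : B i ≠ P j := fun h => by have := (mk_inj.mp h).1; omega
theorem B_ne_Q (i j : ℕ) : B i ≠ Q j := fun h => by have := (mk_inj.mp h).1; omega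
theorem P_ne_Q (i j : ℕ) : P i ≠ Q j := fun h => by have := (mk_inj.mp h).2.1; omega

/-- Pairs of exponents with sum `mk a b c d e f`, the second one in `K₀`. -/
theorem split {x y : Idx q0 →₀ ℕ} {a b c d e f : ℕ} (h : x + y = mk a b c d e f)
    (hy : InK0 vv y) : ∃ a1 b1 c1 d1 e1 f1 a2 b2 c2 d2 e2 f2 : ℕ,
      x = mk a1 b1 c1 d1 e1 f1 ∧ y = mk a2 b2 c2 d2 e2 f2 ∧ a1 + a2 = a ∧ b1 + b2 = b ∧
      c1 + c2 = c ∧ d1 + d2 = d ∧ e1 + e2 = e ∧ f1 + f2 = f ∧
      a2 = b2 + c2 ∧ d2 = e2 + f2 ∧ b2 + e2 = c2 + f2 := by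
  rw [eq_mk x, eq_mk y, mk_add, mk_inj] at h
  rw [eq_mk y, inK0_mk] at hy
  obtain ⟨h1, h2, h3, h4, h5, h6⟩ := h
  obtain ⟨k1, k2, k3⟩ := hy
  exact ⟨_, _, _, _, _, _, _, _, _, _, _, _, eq_mk x, eq_mk y, h1, h2, h3, h4, h5, h6,
    by omega, by omega, by omega⟩

theorem split_B {x y : Idx q0 →₀ ℕ} {n : ℕ} (h : x + y = B n) (hy : InK0 vv y) :
    ∃ i j, i + j = n ∧ x = B i ∧ y = B j := by
  obtain ⟨a1, b1, c1, d1, e1, f1, a2, b2, c2, d2, e2, f2, rfl, rfl, h1, h2, h3, h4, h5, h6, h7,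
    h8, h9⟩ := split h hy
  refine ⟨e1, e2, h5, ?_, ?_⟩
  · exact mk_inj.mpr ⟨by omega, by omega, by omega, by omega, by omega, by omega⟩
  · exact mk_inj.mpr ⟨by omega, by omega, by omega, by omega, by omega, by omega⟩

theorem split_P {x y : Idx q0 →₀ ℕ} {n : ℕ} (h : x + y = P n) (hy : InK0 vv y) :
    (∃ i j, i + j = n ∧ x = P i ∧ y = B j) ∨ (∃ i j, i + j = n ∧ x = B i ∧ y = P j) := by
  obtain ⟨a1, b1, c1, d1, e1, f1, a2, b2, c2, d2, e2, f2, rfl, rfl, h1, h2, h3, h4, h5, h6, h7,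
    h8, h9⟩ := split h hy
  rcases (by omega : b2 = 0 ∨ b2 = 1) with hb | hb
  · left
    refine ⟨e1, e2, h5, ?_, ?_⟩
    · exact mk_inj.mpr ⟨by omega, by omega, by omega, by omega, by omega, by omega⟩
    · exact mk_inj.mpr ⟨by omega, by omega, by omega, by omega, by omega, by omega⟩
  · right
    refine ⟨e1, e2, h5, ?_, ?_⟩
    · exact mk_inj.mpr ⟨by omega, by omega, by omega, by omega, by omega, by omega⟩
    · exact mk_inj.mpr ⟨by omega, by omega, by omega, by omega, by omega, by omega⟩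

theorem split_Q {x y : Idx q0 →₀ ℕ} {n : ℕ} (h : x + y = Q n) (hy : InK0 vv y) :
    (∃ i j, i + j = n ∧ x = Q i ∧ y = B j) ∨ (∃ i j, i + j = n ∧ x = B i ∧ y = Q j) := by
  obtain ⟨a1, b1, c1, d1, e1, f1, a2, b2, c2, d2, e2, f2, rfl, rfl, h1, h2, h3, h4, h5, h6, h7,
    h8, h9⟩ := split h hy
  rcases (by omega : c2 = 0 ∨ c2 = 1) with hb | hb
  · left
    refine ⟨f1, f2, h6, ?_, ?_⟩
    · exact mk_inj.mpr ⟨by omega, by omega, by omega, by omega, by omega, by omega⟩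
    · exact mk_inj.mpr ⟨by omega, by omega, by omega, by omega, by omega, by omega⟩
  · right
    refine ⟨f1, f2, h6, ?_, ?_⟩
    · exact mk_inj.mpr ⟨by omega, by omega, by omega, by omega, by omega, by omega⟩
    · exact mk_inj.mpr ⟨by omega, by omega, by omega, by omega, by omega, by omega⟩

theorem split_A {x y : Idx q0 →₀ ℕ} {n : ℕ} (h : x + y = A n) (hy : InK0 vv y) :
    (∃ i j, i + j = n ∧ x = A i ∧ y = B j) ∨ (∃ i j, i + j = n ∧ x = B i ∧ y = A j) ∨
    (∃ i j, i + j + 1 = n ∧ x = P i ∧ y = Q j) ∨ (∃ i j, i + j + 1 = n ∧ x = Q i ∧ y = P j) := by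
  obtain ⟨a1, b1, c1, d1, e1, f1, a2, b2, c2, d2, e2, f2, rfl, rfl, h1, h2, h3, h4, h5, h6, h7,
    h8, h9⟩ := split h hy
  rcases (by omega : (b2 = 0 ∧ c2 = 0) ∨ (b2 = 1 ∧ c2 = 1) ∨ (b2 = 0 ∧ c2 = 1) ∨
    (b2 = 1 ∧ c2 = 0)) with hb | hb | hb | hb
  · left
    refine ⟨e1, e2, h5, ?_, ?_⟩
    · exact mk_inj.mpr ⟨by omega, by omega, by omega, by omega, by omega, by omega⟩
    · exact mk_inj.mpr ⟨by omega, by omega, by omega, by omega, by omega, by omega⟩
  · right; left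
    refine ⟨e1, e2, h5, ?_, ?_⟩
    · exact mk_inj.mpr ⟨by omega, by omega, by omega, by omega, by omega, by omega⟩
    · exact mk_inj.mpr ⟨by omega, by omega, by omega, by omega, by omega, by omega⟩
  · right; right; left
    refine ⟨e1, f2, by omega, ?_, ?_⟩
    · exact mk_inj.mpr ⟨by omega, by omega, by omega, by omega, by omega, by omega⟩
    · exact mk_inj.mpr ⟨by omega, by omega, by omega, by omega, by omega, by omega⟩
  · right; right; right
    refine ⟨f1, e2, by omega, ?_, ?_⟩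
    · exact mk_inj.mpr ⟨by omega, by omega, by omega, by omega, by omega, by omega⟩
    · exact mk_inj.mpr ⟨by omega, by omega, by omega, by omega, by omega, by omega⟩

theorem add_BB (i j : ℕ) : B i + B j = B (i + j) := by
  unfold B; rw [mk_add]; exact mk_inj.mpr ⟨rfl, rfl, rfl, by ring, rfl, rfl⟩
theorem add_AB (i j : ℕ) : A i + B j = A (i + j) := by
  unfold A B; rw [mk_add]; exact mk_inj.mpr ⟨rfl, rfl, rfl, by ring, rfl, rfl⟩
theorem add_PB (i j : ℕ) : P i + B j = P (i + j) := by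
  unfold P B; rw [mk_add]; exact mk_inj.mpr ⟨rfl, rfl, rfl, by ring, rfl, by ring⟩
theorem add_QB (i j : ℕ) : Q i + B j = Q (i + j) := by
  unfold Q B; rw [mk_add]; exact mk_inj.mpr ⟨rfl, rfl, rfl, by ring, by ring, rfl⟩
theorem add_PQ (i j : ℕ) : P i + Q j = A (i + j + 1) := by
  unfold P Q A; rw [mk_add]; exact mk_inj.mpr ⟨rfl, rfl, rfl, by ring, by ring, by ring⟩

section conv

variable (F G : MvPowerSeries (Idx q0) ℚ) (hG : ∀ y, ¬ InK0 vv y → MvPowerSeries.coeff y G = 0)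

/-- the sum over the pairs `(c (i), c' (j))`, `i + j = n` -/
noncomputable def cs (c c' : ℕ → Idx q0 →₀ ℕ) (n : ℕ) : ℚ :=
  ∑ p ∈ antidiagonal n, MvPowerSeries.coeff (c p.1) F * MvPowerSeries.coeff (c' p.2) G

open Classical in
theorem cs_eq {c c' : ℕ → Idx q0 →₀ ℕ} (hc : ∀ i j, c i = c j → i = j) (n : ℕ)
    (hc' : ∀ i j, c' i = c' j → i = j) :
    cs F G c c' n = ∑ p ∈ (antidiagonal n).image (fun p => (c p.1, c' p.2)),
      MvPowerSeries.coeff p.1 F * MvPowerSeries.coeff p.2 G := by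
  rw [Finset.sum_image]
  · rfl
  · intro p _ p' _ h
    exact Prod.ext (hc _ _ (Prod.mk.inj h).1) (hc' _ _ (Prod.mk.inj h).2)

include hG in
open Classical in
theorem coeff_B (n : ℕ) : MvPowerSeries.coeff (B n) (F * G) = cs F G B B n := by
  rw [MvPowerSeries.coeff_mul, cs_eq F G (fun _ _ => B_inj) n (fun _ _ => B_inj)]
  symm
  refine Finset.sum_subset ?_ ?_
  · intro p hp
    rw [Finset.mem_image] at hp
    obtain ⟨⟨i, j⟩, hij, rfl⟩ := hp
    rw [Finset.HasAntidiagonal.mem_antidiagonal] at hij ⊢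
    rw [add_BB, hij]
  · rintro ⟨x, y⟩ hp hnot
    rw [Finset.HasAntidiagonal.mem_antidiagonal] at hp
    by_cases hy : InK0 vv y
    · obtain ⟨i, j, hij, rfl, rfl⟩ := split_B hp hy
      exact absurd (Finset.mem_image.mpr ⟨(i, j), Finset.HasAntidiagonal.mem_antidiagonal.mpr hij, rfl⟩) hnot
    · rw [hG y hy, mul_zero]

include hG in
open Classical in
theorem coeff_P (n : ℕ) : MvPowerSeries.coeff (P n) (F * G) = cs F G P B n + cs F G B P n := by
  rw [MvPowerSeries.coeff_mul, cs_eq F G (fun _ _ => P_inj) n (fun _ _ => B_inj),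
    cs_eq F G (fun _ _ => B_inj) n (fun _ _ => P_inj), ← Finset.sum_union]
  · symm
    refine Finset.sum_subset ?_ ?_
    · intro p hp
      rw [Finset.mem_union, Finset.mem_image, Finset.mem_image] at hp
      rcases hp with ⟨⟨i, j⟩, hij, rfl⟩ | ⟨⟨i, j⟩, hij, rfl⟩
      · rw [Finset.HasAntidiagonal.mem_antidiagonal] at hij ⊢
        rw [add_PB, hij]
      · rw [Finset.HasAntidiagonal.mem_antidiagonal] at hij ⊢
        rw [add_comm, add_PB, add_comm, hij]
    · rintro ⟨x, y⟩ hp hnot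
      rw [Finset.HasAntidiagonal.mem_antidiagonal] at hp
      by_cases hy : InK0 vv y
      · rw [Finset.mem_union, Finset.mem_image, Finset.mem_image] at hnot
        rcases split_P hp hy with ⟨i, j, hij, rfl, rfl⟩ | ⟨i, j, hij, rfl, rfl⟩
        · exact absurd (Or.inl ⟨(i, j), Finset.HasAntidiagonal.mem_antidiagonal.mpr hij, rfl⟩) hnot
        · exact absurd (Or.inr ⟨(i, j), Finset.HasAntidiagonal.mem_antidiagonal.mpr hij, rfl⟩) hnot
      · rw [hG y hy, mul_zero]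
  · rw [Finset.disjoint_left]
    intro p hp hp'
    rw [Finset.mem_image] at hp hp'
    obtain ⟨⟨i, j⟩, _, rfl⟩ := hp
    obtain ⟨⟨i', j'⟩, _, h⟩ := hp'
    exact B_ne_P _ _ (Prod.mk.inj h).1

include hG in
open Classical in
theorem coeff_Q (n : ℕ) : MvPowerSeries.coeff (Q n) (F * G) = cs F G Q B n + cs F G B Q n := by
  rw [MvPowerSeries.coeff_mul, cs_eq F G (fun _ _ => Q_inj) n (fun _ _ => B_inj),
    cs_eq F G (fun _ _ => B_inj) n (fun _ _ => Q_inj), ← Finset.sum_union]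
  · symm
    refine Finset.sum_subset ?_ ?_
    · intro p hp
      rw [Finset.mem_union, Finset.mem_image, Finset.mem_image] at hp
      rcases hp with ⟨⟨i, j⟩, hij, rfl⟩ | ⟨⟨i, j⟩, hij, rfl⟩
      · rw [Finset.HasAntidiagonal.mem_antidiagonal] at hij ⊢
        rw [add_QB, hij]
      · rw [Finset.HasAntidiagonal.mem_antidiagonal] at hij ⊢
        rw [add_comm, add_QB, add_comm, hij]
    · rintro ⟨x, y⟩ hp hnot
      rw [Finset.HasAntidiagonal.mem_antidiagonal] at hp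
      by_cases hy : InK0 vv y
      · rw [Finset.mem_union, Finset.mem_image, Finset.mem_image] at hnot
        rcases split_Q hp hy with ⟨i, j, hij, rfl, rfl⟩ | ⟨i, j, hij, rfl, rfl⟩
        · exact absurd (Or.inl ⟨(i, j), Finset.HasAntidiagonal.mem_antidiagonal.mpr hij, rfl⟩) hnot
        · exact absurd (Or.inr ⟨(i, j), Finset.HasAntidiagonal.mem_antidiagonal.mpr hij, rfl⟩) hnot
      · rw [hG y hy, mul_zero]
  · rw [Finset.disjoint_left]
    intro p hp hp'
    rw [Finset.mem_image] at hp hp'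
    obtain ⟨⟨i, j⟩, _, rfl⟩ := hp
    obtain ⟨⟨i', j'⟩, _, h⟩ := hp'
    exact B_ne_Q _ _ (Prod.mk.inj h).1

include hG in
open Classical in
theorem coeff_A_zero :
    MvPowerSeries.coeff (A 0) (F * G) = cs F G A B 0 + cs F G B A 0 := by
  rw [MvPowerSeries.coeff_mul, cs_eq F G (fun _ _ => A_inj) 0 (fun _ _ => B_inj),
    cs_eq F G (fun _ _ => B_inj) 0 (fun _ _ => A_inj), ← Finset.sum_union]
  · symm
    refine Finset.sum_subset ?_ ?_
    · intro p hp
      rw [Finset.mem_union, Finset.mem_image, Finset.mem_image] at hp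
      rcases hp with ⟨⟨i, j⟩, hij, rfl⟩ | ⟨⟨i, j⟩, hij, rfl⟩
      · rw [Finset.HasAntidiagonal.mem_antidiagonal] at hij ⊢
        rw [add_AB, hij]
      · rw [Finset.HasAntidiagonal.mem_antidiagonal] at hij ⊢
        rw [add_comm, add_AB, add_comm, hij]
    · rintro ⟨x, y⟩ hp hnot
      rw [Finset.HasAntidiagonal.mem_antidiagonal] at hp
      by_cases hy : InK0 vv y
      · rw [Finset.mem_union, Finset.mem_image, Finset.mem_image] at hnot
        rcases split_A hp hy with ⟨i, j, hij, rfl, rfl⟩ | ⟨i, j, hij, rfl, rfl⟩ |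
          ⟨i, j, hij, -, -⟩ | ⟨i, j, hij, -, -⟩
        · exact absurd (Or.inl ⟨(i, j), Finset.HasAntidiagonal.mem_antidiagonal.mpr hij, rfl⟩) hnot
        · exact absurd (Or.inr ⟨(i, j), Finset.HasAntidiagonal.mem_antidiagonal.mpr hij, rfl⟩) hnot
        · omega
        · omega
      · rw [hG y hy, mul_zero]
  · rw [Finset.disjoint_left]
    intro p hp hp'
    rw [Finset.mem_image] at hp hp'
    obtain ⟨⟨i, j⟩, _, rfl⟩ := hp
    obtain ⟨⟨i', j'⟩, _, h⟩ := hp'
    exact A_ne_B _ _ (Prod.mk.inj h).1.symm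

include hG in
open Classical in
theorem coeff_A_succ (n : ℕ) :
    MvPowerSeries.coeff (A (n + 1)) (F * G) = cs F G A B (n + 1) + cs F G B A (n + 1) +
      (cs F G P Q n + cs F G Q P n) := by
  rw [MvPowerSeries.coeff_mul, cs_eq F G (fun _ _ => A_inj) (n + 1) (fun _ _ => B_inj),
    cs_eq F G (fun _ _ => B_inj) (n + 1) (fun _ _ => A_inj),
    cs_eq F G (fun _ _ => P_inj) n (fun _ _ => Q_inj),
    cs_eq F G (fun _ _ => Q_inj) n (fun _ _ => P_inj), ← Finset.sum_union, ← Finset.sum_union,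
    ← Finset.sum_union]
  · symm
    refine Finset.sum_subset ?_ ?_
    · intro p hp
      simp only [Finset.mem_union, Finset.mem_image] at hp
      rcases hp with (⟨⟨i, j⟩, hij, rfl⟩ | ⟨⟨i, j⟩, hij, rfl⟩) |
        (⟨⟨i, j⟩, hij, rfl⟩ | ⟨⟨i, j⟩, hij, rfl⟩)
      · rw [Finset.HasAntidiagonal.mem_antidiagonal] at hij ⊢
        rw [add_AB, hij]
      · rw [Finset.HasAntidiagonal.mem_antidiagonal] at hij ⊢
        rw [add_comm, add_AB, add_comm, hij]
      · rw [Finset.HasAntidiagonal.mem_antidiagonal] at hij ⊢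
        rw [add_PQ, hij]
      · rw [Finset.HasAntidiagonal.mem_antidiagonal] at hij ⊢
        rw [add_comm, add_PQ, add_comm j i, hij]
    · rintro ⟨x, y⟩ hp hnot
      rw [Finset.HasAntidiagonal.mem_antidiagonal] at hp
      by_cases hy : InK0 vv y
      · simp only [Finset.mem_union, Finset.mem_image] at hnot
        rcases split_A hp hy with ⟨i, j, hij, rfl, rfl⟩ | ⟨i, j, hij, rfl, rfl⟩ |
          ⟨i, j, hij, rfl, rfl⟩ | ⟨i, j, hij, rfl, rfl⟩
        · exact absurd (Or.inl (Or.inl ⟨(i, j), Finset.HasAntidiagonal.mem_antidiagonal.mpr hij, rfl⟩)) hnot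
        · exact absurd (Or.inl (Or.inr ⟨(i, j), Finset.HasAntidiagonal.mem_antidiagonal.mpr hij, rfl⟩)) hnot
        · exact absurd (Or.inr (Or.inl ⟨(i, j), Finset.HasAntidiagonal.mem_antidiagonal.mpr (by omega), rfl⟩)) hnot
        · exact absurd (Or.inr (Or.inr ⟨(i, j), Finset.HasAntidiagonal.mem_antidiagonal.mpr (by omega), rfl⟩)) hnot
      · rw [hG y hy, mul_zero]
  · rw [Finset.disjoint_left]
    intro p hp hp'
    simp only [Finset.mem_union, Finset.mem_image] at hp hp'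
    rcases hp with ⟨⟨i, j⟩, _, rfl⟩ | ⟨⟨i, j⟩, _, rfl⟩
    · rcases hp' with ⟨⟨i', j'⟩, _, h⟩ | ⟨⟨i', j'⟩, _, h⟩
      · exact A_ne_P _ _ (Prod.mk.inj h).1.symm
      · exact A_ne_Q _ _ (Prod.mk.inj h).1.symm
    · rcases hp' with ⟨⟨i', j'⟩, _, h⟩ | ⟨⟨i', j'⟩, _, h⟩
      · exact B_ne_P _ _ (Prod.mk.inj h).1.symm
      · exact B_ne_Q _ _ (Prod.mk.inj h).1.symm
  · rw [Finset.disjoint_left]
    intro p hp hp'
    rw [Finset.mem_image] at hp hp'
    obtain ⟨⟨i, j⟩, _, rfl⟩ := hp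
    obtain ⟨⟨i', j'⟩, _, h⟩ := hp'
    exact P_ne_Q _ _ (Prod.mk.inj h).1.symm
  · rw [Finset.disjoint_left]
    intro p hp hp'
    rw [Finset.mem_image] at hp hp'
    obtain ⟨⟨i, j⟩, _, rfl⟩ := hp
    obtain ⟨⟨i', j'⟩, _, h⟩ := hp'
    exact A_ne_B _ _ (Prod.mk.inj h).1.symm

end conv

/-- the univariate series of the coefficients at `c 0, c 1, …` -/
noncomputable def ser (c : ℕ → Idx q0 →₀ ℕ) (F : MvPowerSeries (Idx q0) ℚ) : PowerSeries ℚ :=
  PowerSeries.mk fun j => MvPowerSeries.coeff (c j) F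

theorem coeff_ser_mul (c c' : ℕ → Idx q0 →₀ ℕ) (F G : MvPowerSeries (Idx q0) ℚ) (n : ℕ) :
    PowerSeries.coeff n (ser c F * ser c' G) = cs F G c c' n := by
  rw [PowerSeries.coeff_mul]
  unfold cs ser
  exact Finset.sum_congr rfl fun p _ => by rw [PowerSeries.coeff_mk, PowerSeries.coeff_mk]

section ser

variable (F G : MvPowerSeries (Idx q0) ℚ) (hG : ∀ y, ¬ InK0 vv y → MvPowerSeries.coeff y G = 0)

include hG

theorem ser_B : ser B (F * G) = ser B F * ser B G := by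
  ext n
  rw [coeff_ser_mul, ← coeff_B F G hG n]
  exact PowerSeries.coeff_mk _ _

theorem ser_P : ser P (F * G) = ser P F * ser B G + ser B F * ser P G := by
  ext n
  rw [map_add, coeff_ser_mul, coeff_ser_mul, ← coeff_P F G hG n]
  exact PowerSeries.coeff_mk _ _

theorem ser_Q : ser Q (F * G) = ser Q F * ser B G + ser B F * ser Q G := by
  ext n
  rw [map_add, coeff_ser_mul, coeff_ser_mul, ← coeff_Q F G hG n]
  exact PowerSeries.coeff_mk _ _

theorem ser_A : ser A (F * G) = ser A F * ser B G + ser B F * ser A G +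
    PowerSeries.X * (ser P F * ser Q G + ser Q F * ser P G) := by
  ext n
  cases n with
  | zero =>
    rw [map_add, map_add, coeff_ser_mul, coeff_ser_mul, PowerSeries.coeff_zero_X_mul, add_zero,
      ← coeff_A_zero F G hG]
    exact PowerSeries.coeff_mk _ _
  | succ n =>
    rw [map_add, map_add, coeff_ser_mul, coeff_ser_mul, PowerSeries.coeff_succ_X_mul, map_add,
      coeff_ser_mul, coeff_ser_mul, ← coeff_A_succ F G hG]
    exact PowerSeries.coeff_mk _ _

end ser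

end Pool.Agent.Y825.NM
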