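import Pool.Agent.Y825.NM.Series

/-! The coefficients of `φ₁₁ / φ₀` at `(2,1,1; 2n,n,n)`: the generating function and the bound. -/

set_option autoImplicit false

open Finset

namespace Pool.Agent.Y825.NM

open Pool.Agent.Results.MP_3570a5_nt.NegativeCoefficient

/-- `m_j = (4j)! / ((2j)! j!²)` -/
noncomputable def m (j : ℕ) : ℚ :=
  ((4 * j).factorial : ℚ) / (((2 * j).factorial : ℚ) * j.factorial * j.factorial)

/-- `w_j = (4j+2)! / ((2j+1)! j! (j+1)!)` -/
noncomputable def w (j : ℕ) : ℚ :=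
  ((4 * j + 2).factorial : ℚ) /
    (((2 * j + 1).factorial : ℚ) * j.factorial * (j + 1).factorial)

theorem inK0_B (j : ℕ) : InK0 vv (B j) := by
  unfold B; rw [inK0_mk]; refine ⟨?_, ?_, ?_⟩ <;> first | simp; done | (push_cast; ring)
theorem inK0_P (j : ℕ) : InK0 vv (P j) := by
  unfold P; rw [inK0_mk]; refine ⟨?_, ?_, ?_⟩ <;> first | simp; done | (push_cast; ring)
theorem inK0_Q (j : ℕ) : InK0 vv (Q j) := by
  unfold Q; rw [inK0_mk]; refine ⟨?_, ?_, ?_⟩ <;> first | simp; done | (push_cast; ring)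
theorem inK0_A (j : ℕ) : InK0 vv (A j) := by
  unfold A; rw [inK0_mk]; refine ⟨?_, ?_, ?_⟩ <;> first | simp; done | (push_cast; ring)

theorem coefC_B (j : ℕ) : coefC (B j) = m j := by
  unfold B m
  rw [coefC_mk]
  have e : 2 * j + j + j = 4 * j := by ring
  rw [e]
  simp [Nat.factorial]

theorem coefC_A (j : ℕ) : coefC (A j) = 12 * m j := by
  unfold A m
  rw [coefC_mk]
  have e : 2 * j + j + j = 4 * j := by ring
  rw [e]
  norm_num [Nat.factorial]

theorem coefC_P (j : ℕ) : coefC (P j) = 2 * w j := by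
  unfold P w
  rw [coefC_mk]
  have e : 2 * j + 1 + j + (j + 1) = 4 * j + 2 := by ring
  rw [e]
  norm_num [Nat.factorial]

theorem coefC_Q (j : ℕ) : coefC (Q j) = 2 * w j := by
  unfold Q w
  rw [coefC_mk]
  have e : 2 * j + 1 + (j + 1) + j = 4 * j + 2 := by ring
  rw [e]
  have e2 : ((2 * j + 1).factorial : ℚ) * (j + 1).factorial * j.factorial =
      ((2 * j + 1).factorial : ℚ) * j.factorial * (j + 1).factorial := by ring
  rw [e2]
  norm_num [Nat.factorial]

/-- the series `∑ m_j X^j` -/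
noncomputable def f0 : PowerSeries ℚ := PowerSeries.mk m
/-- the series `∑ w_j X^j` -/
noncomputable def ws : PowerSeries ℚ := PowerSeries.mk w

theorem ser_B_phi0 : ser B (phi0 vv) = f0 := by
  ext n
  unfold ser f0
  rw [PowerSeries.coeff_mk, PowerSeries.coeff_mk, coeff_phi0_pos (inK0_B n), coefC_B]
theorem ser_A_phi0 : ser A (phi0 vv) = 12 * f0 := by
  ext n
  have : (12 : PowerSeries ℚ) = PowerSeries.C (12 : ℚ) := (map_ofNat PowerSeries.C 12).symm
  rw [this, PowerSeries.coeff_C_mul]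
  unfold ser f0
  rw [PowerSeries.coeff_mk, PowerSeries.coeff_mk, coeff_phi0_pos (inK0_A n), coefC_A]
theorem ser_P_phi0 : ser P (phi0 vv) = 2 * ws := by
  ext n
  have : (2 : PowerSeries ℚ) = PowerSeries.C (2 : ℚ) := (map_ofNat PowerSeries.C 2).symm
  rw [this, PowerSeries.coeff_C_mul]
  unfold ser ws
  rw [PowerSeries.coeff_mk, PowerSeries.coeff_mk, coeff_phi0_pos (inK0_P n), coefC_P]
theorem ser_Q_phi0 : ser Q (phi0 vv) = 2 * ws := by
  ext n
  have : (2 : PowerSeries ℚ) = PowerSeries.C (2 : ℚ) := (map_ofNat PowerSeries.C 2).symm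
  rw [this, PowerSeries.coeff_C_mul]
  unfold ser ws
  rw [PowerSeries.coeff_mk, PowerSeries.coeff_mk, coeff_phi0_pos (inK0_Q n), coefC_Q]

theorem ser_B_phi : ser B (phi vv ⟨0, (0 : Fin 3)⟩) = 0 := by
  ext n
  unfold ser
  rw [PowerSeries.coeff_mk, map_zero]
  unfold B
  rw [phi_mk _ _ _ _ _ _ (inK0_B n)]
  simp
theorem ser_P_phi : ser P (phi vv ⟨0, (0 : Fin 3)⟩) = ws := by
  ext n
  unfold ser ws
  rw [PowerSeries.coeff_mk, PowerSeries.coeff_mk]
  have h := phi_mk _ _ _ _ _ _ (inK0_P n)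
  have h2 := coefC_P n
  unfold P at h h2 ⊢
  rw [h, h2]
  norm_num [harmonic, Finset.sum_range_succ]
  ring
theorem ser_Q_phi : ser Q (phi vv ⟨0, (0 : Fin 3)⟩) = ws := by
  ext n
  unfold ser ws
  rw [PowerSeries.coeff_mk, PowerSeries.coeff_mk]
  have h := phi_mk _ _ _ _ _ _ (inK0_Q n)
  have h2 := coefC_Q n
  unfold Q at h h2 ⊢
  rw [h, h2]
  norm_num [harmonic, Finset.sum_range_succ]
  ring
theorem ser_A_phi : ser A (phi vv ⟨0, (0 : Fin 3)⟩) = 7 * f0 := by
  ext n
  have : (7 : PowerSeries ℚ) = PowerSeries.C (7 : ℚ) := (map_ofNat PowerSeries.C 7).symm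
  rw [this, PowerSeries.coeff_C_mul]
  unfold ser f0
  rw [PowerSeries.coeff_mk, PowerSeries.coeff_mk]
  have h := phi_mk _ _ _ _ _ _ (inK0_A n)
  have h2 := coefC_A n
  unfold A at h h2 ⊢
  rw [h, h2]
  norm_num [harmonic, Finset.sum_range_succ]
  ring

theorem m_pos (j : ℕ) : 0 < m j := by unfold m; positivity
theorem w_pos (j : ℕ) : 0 < w j := by unfold w; positivity

theorem m_zero : m 0 = 1 := by simp [m]
theorem w_zero : w 0 = 2 := by norm_num [w, Nat.factorial]

theorem f0_ne : f0 ≠ 0 := by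
  intro h
  have := congrArg (PowerSeries.coeff 0) h
  rw [f0, PowerSeries.coeff_mk, m_zero, map_zero] at this
  exact one_ne_zero this

/-- the series `h = w / f₀` -/
noncomputable def hs : PowerSeries ℚ := ser P (logMirror vv ⟨0, (0 : Fin 3)⟩)

theorem phi0_supp : ∀ y, ¬ InK0 vv y → MvPowerSeries.coeff y (phi0 vv) = 0 :=
  fun _ h => coeff_phi0_neg h

theorem ser_B_L : ser B (logMirror vv ⟨0, (0 : Fin 3)⟩) = 0 := by
  have h := ser_B (logMirror vv ⟨0, (0 : Fin 3)⟩) (phi0 vv) phi0_supp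
  rw [logMirror_mul, ser_B_phi, ser_B_phi0] at h
  exact (mul_eq_zero.mp h.symm).resolve_right f0_ne

theorem hs_mul : hs * f0 = ws := by
  have h := ser_P (logMirror vv ⟨0, (0 : Fin 3)⟩) (phi0 vv) phi0_supp
  rw [logMirror_mul, ser_P_phi, ser_B_phi0, ser_B_L, zero_mul, add_zero] at h
  exact h.symm

theorem ser_Q_L : ser Q (logMirror vv ⟨0, (0 : Fin 3)⟩) = hs := by
  have h := ser_Q (logMirror vv ⟨0, (0 : Fin 3)⟩) (phi0 vv) phi0_supp
  rw [logMirror_mul, ser_Q_phi, ser_B_phi0, ser_B_L, zero_mul, add_zero, ← hs_mul] at h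
  exact (mul_right_cancel₀ f0_ne h).symm

/-- The generating function of the coefficients at `(2,1,1; 2n,n,n)`. -/
theorem ser_A_L : ser A (logMirror vv ⟨0, (0 : Fin 3)⟩) = 7 - 4 * (PowerSeries.X * (hs * hs)) := by
  have h := ser_A (logMirror vv ⟨0, (0 : Fin 3)⟩) (phi0 vv) phi0_supp
  rw [logMirror_mul, ser_A_phi, ser_B_phi0, ser_B_L, zero_mul, add_zero, ser_Q_L, ser_Q_phi0,
    ser_P_phi0, ← hs_mul] at h
  refine mul_right_cancel₀ f0_ne ?_
  have e : ser P (logMirror vv ⟨0, (0 : Fin 3)⟩) = hs := rfl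
  rw [e] at h
  linear_combination -h

theorem coeff_A_L (n : ℕ) : MvPowerSeries.coeff (A (n + 1)) (logMirror vv ⟨0, (0 : Fin 3)⟩) =
    -4 * ∑ p ∈ antidiagonal n, PowerSeries.coeff p.1 hs * PowerSeries.coeff p.2 hs := by
  have h := congrArg (PowerSeries.coeff (n + 1)) ser_A_L
  unfold ser at h
  rw [PowerSeries.coeff_mk] at h
  rw [h]
  have e7 : (7 : PowerSeries ℚ) = PowerSeries.C (7 : ℚ) := (map_ofNat PowerSeries.C 7).symm
  have e4 : (4 : PowerSeries ℚ) = PowerSeries.C (4 : ℚ) := (map_ofNat PowerSeries.C 4).symm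
  rw [map_sub, e7, e4, PowerSeries.coeff_C_mul, PowerSeries.coeff_succ_X_mul,
    PowerSeries.coeff_mul, PowerSeries.coeff_C, if_neg (Nat.succ_ne_zero n)]
  ring

/-- the coefficients of `h` -/
noncomputable def h (n : ℕ) : ℚ := PowerSeries.coeff n hs

theorem w_eq (n : ℕ) : w n = ∑ i ∈ range (n + 1), h i * m (n - i) := by
  have e := congrArg (PowerSeries.coeff n) hs_mul
  rw [PowerSeries.coeff_mul] at e
  unfold ws f0 at e
  rw [PowerSeries.coeff_mk] at e
  rw [← e, Finset.Nat.sum_antidiagonal_eq_sum_range_succ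
    (fun i j => PowerSeries.coeff i hs * PowerSeries.coeff j (PowerSeries.mk m))]
  refine Finset.sum_congr rfl fun i _ => ?_
  rw [PowerSeries.coeff_mk]
  rfl

/-- `ρ_j = m_{j+1} / m_j` -/
noncomputable def rho (j : ℕ) : ℚ := 4 * (4 * j + 3) * (4 * j + 1) / ((j + 1) * (j + 1))

theorem m_succ (j : ℕ) : m (j + 1) = rho j * m j := by
  unfold m rho
  have e4 : 4 * (j + 1) = 4 * j + 3 + 1 := by ring
  have e2 : 2 * (j + 1) = 2 * j + 1 + 1 := by ring
  rw [e4, e2, Nat.factorial_succ (4 * j + 3), Nat.factorial_succ (4 * j + 2),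
    Nat.factorial_succ (4 * j + 1), Nat.factorial_succ (4 * j), Nat.factorial_succ (2 * j + 1),
    Nat.factorial_succ (2 * j), Nat.factorial_succ j]
  have h1 : ((4 * j).factorial : ℚ) ≠ 0 := by positivity
  have h2 : ((2 * j).factorial : ℚ) ≠ 0 := by positivity
  have h3 : (j.factorial : ℚ) ≠ 0 := by positivity
  push_cast
  field_simp
  ring

theorem w_eq_m (j : ℕ) : w j = 2 * (4 * j + 1) / (j + 1) * m j := by
  unfold m w
  rw [Nat.factorial_succ (4 * j + 1), Nat.factorial_succ (4 * j), Nat.factorial_succ (2 * j),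
    Nat.factorial_succ j]
  have h1 : ((4 * j).factorial : ℚ) ≠ 0 := by positivity
  have h2 : ((2 * j).factorial : ℚ) ≠ 0 := by positivity
  have h3 : (j.factorial : ℚ) ≠ 0 := by positivity
  push_cast
  field_simp
  ring

theorem rho_mono {i j : ℕ} (hij : i ≤ j) : rho i ≤ rho j := by
  unfold rho
  rw [div_le_div_iff₀ (by positivity) (by positivity)]
  have hij' : (i : ℚ) ≤ (j : ℚ) := by exact_mod_cast hij
  have hi : (0 : ℚ) ≤ (i : ℚ) := Nat.cast_nonneg i
  obtain ⟨c, hc, hj⟩ : ∃ c : ℚ, 0 ≤ c ∧ (j : ℚ) = i + c := ⟨j - i, by linarith, by ring⟩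
  rw [hj]
  have hic : 0 ≤ (i : ℚ) * c := mul_nonneg hi hc
  nlinarith [mul_nonneg hi hic, mul_nonneg hc hic, mul_nonneg hic hic, mul_nonneg hc hc,
    mul_nonneg hi (mul_nonneg hi hic), mul_nonneg hi (mul_nonneg hc hic)]

theorem m_ge (j : ℕ) : (12 : ℚ) ^ j ≤ m j := by
  induction j with
  | zero => rw [m_zero, pow_zero]
  | succ j ih =>
    rw [m_succ, pow_succ]
    have h1 : (12 : ℚ) ≤ rho j := by
      have := rho_mono (Nat.zero_le j)
      have h0 : rho 0 = 12 := by norm_num [rho]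
      rwa [h0] at this
    have h2 := m_pos j
    nlinarith [mul_le_mul ih h1 (by norm_num : (0 : ℚ) ≤ 12) h2.le]

theorem h_zero : h 0 = 2 := by
  have := w_eq 0
  rw [w_zero] at this
  simp [m_zero] at this
  exact this.symm

/-- the key lower bound -/
theorem h_succ_ge (n : ℕ) (ih : ∀ i ≤ n, 0 ≤ h i) :
    6 / ((n + 1) * (n + 2)) * m (n + 1) ≤ h (n + 1) := by
  have e1 := w_eq (n + 1)
  rw [Finset.sum_range_succ, Nat.sub_self, m_zero, mul_one] at e1
  have e2 := w_eq n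
  have h1 : ∑ i ∈ range (n + 1), h i * m (n + 1 - i) ≤ rho n * w n := by
    rw [e2, Finset.mul_sum]
    refine Finset.sum_le_sum fun i hi => ?_
    have hi' : i ≤ n := Nat.lt_succ_iff.mp (Finset.mem_range.mp hi)
    have e3 : n + 1 - i = (n - i) + 1 := by omega
    rw [e3, m_succ]
    have h2 : rho (n - i) ≤ rho n := rho_mono (Nat.sub_le n i)
    have h3 := m_pos (n - i)
    have h4 := mul_nonneg (ih i hi') h3.le
    nlinarith [mul_le_mul_of_nonneg_right h2 h4]
  have h5 : w (n + 1) - rho n * w n = 6 / ((n + 1) * (n + 2)) * m (n + 1) := by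
    rw [w_eq_m, w_eq_m, m_succ]
    push_cast
    field_simp
    ring
  linarith

theorem h_nonneg (n : ℕ) : 0 ≤ h n := by
  induction n using Nat.strong_induction_on with
  | _ n ih =>
    cases n with
    | zero => rw [h_zero]; norm_num
    | succ n =>
      refine le_trans ?_ (h_succ_ge n fun i hi => ih i (by omega))
      have := m_pos (n + 1)
      positivity

theorem h_ge (n : ℕ) : 2 * (4 : ℚ) ^ n ≤ h n := by
  cases n with
  | zero => rw [h_zero]; norm_num
  | succ n =>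
    refine le_trans ?_ (h_succ_ge n fun i _ => h_nonneg i)
    have h1 := m_ge (n + 1)
    have h2 : ((n : ℚ) + 1) * (n + 2) ≤ 3 ^ (n + 1) := by
      clear h1
      induction n with
      | zero => norm_num
      | succ n ih =>
        rw [pow_succ]
        push_cast
        have hn : (0 : ℚ) ≤ n := Nat.cast_nonneg n
        nlinarith
    have h3 : (0 : ℚ) < ((n : ℚ) + 1) * (n + 2) := by positivity
    have h4 : (12 : ℚ) ^ (n + 1) = 4 ^ (n + 1) * 3 ^ (n + 1) := by
      rw [← mul_pow]; norm_num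
    have h5 : (6 : ℚ) / ((n + 1) * (n + 2)) * m (n + 1) ≥ 6 / ((n + 1) * (n + 2)) * 12 ^ (n + 1) :=
      mul_le_mul_of_nonneg_left h1 (by positivity)
    refine le_trans ?_ h5
    rw [h4, div_mul_eq_mul_div, le_div_iff₀ h3]
    have h6 : (0 : ℚ) ≤ 4 ^ (n + 1) := by positivity
    nlinarith [mul_le_mul_of_nonneg_left h2 h6]

/-- The coefficient at `(2,1,1; 2n,n,n)` is at most `-4^(n+1)`, for all `n ≥ 1`. -/
theorem coeff_le (n : ℕ) :
    MvPowerSeries.coeff (A (n + 1)) (logMirror vv ⟨0, (0 : Fin 3)⟩) ≤ -4 ^ (n + 2) := by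
  rw [coeff_A_L]
  have h1 : h 0 * h n ≤ ∑ p ∈ antidiagonal n, PowerSeries.coeff p.1 hs *
      PowerSeries.coeff p.2 hs := by
    refine Finset.single_le_sum (f := fun p : ℕ × ℕ => PowerSeries.coeff p.1 hs *
      PowerSeries.coeff p.2 hs) (fun p _ => mul_nonneg (h_nonneg _) (h_nonneg _))
      (a := (0, n)) ?_
    rw [Finset.HasAntidiagonal.mem_antidiagonal]
    exact zero_add n
  have h2 := h_ge n
  rw [h_zero] at h1
  have e : (4 : ℚ) ^ (n + 2) = 16 * 4 ^ n := by rw [pow_add]; ring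
  rw [e]
  linarith

end Pool.Agent.Y825.NM
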